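import Pool.Agent.Q224.Rk.Final

/-!
# MP_cd2397_nt, Q1: both parts (a) and (b) hold
-/

namespace Pool.Agent.Results.MP_cd2397_nt.RankParity

open Pool.Agent.Q224.Rk

/-- (a) for `rk₂` on all five progressions, and (b) for `rk` on all of them except `(16, 14)`. -/
theorem result :
    (∀ AB ∈ SS, ∀ n : ℕ, 4 ∣ NN rk2 0 (AB.1 * n + AB.2) ∧ 4 ∣ NN rk2 1 (AB.1 * n + AB.2)) ∧
    (∀ AB ∈ SS, AB ≠ (16, 14) → ∀ n : ℕ,
      4 ∣ NN rk 0 (AB.1 * n + AB.2) ∧ 4 ∣ NN rk 1 (AB.1 * n + AB.2)) :=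
  rank_parity

end Pool.Agent.Results.MP_cd2397_nt.RankParity
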